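import Pool.Agent.L0h29.AL.ArtDefs5

/-!
# Project AL, part 4, module LCN: the Artin monoid of a finite Coxeter group is left cancellative
-/

set_option autoImplicit false

namespace Pool.Agent.L0h61.AL

open Pool.Agent.L0h29.AL CoxeterSystem
open Pool.Agent.Helper741 (rword rword_reduced rword_prod rword_length isReduced_aw longest_mul
  longest_sq exists_longest two_le_of_ne)

universe u

/-! ## the prefix order -/

section order

variable {B W : Type*} [Group W] {M : CoxeterMatrix B} {cs : CoxeterSystem M W}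

theorem pl_refl (u : W) : Pl cs u u := by
  unfold Pl; simp

theorem pl_len {u v : W} (h : Pl cs u v) :
    cs.length u + cs.length (u⁻¹ * v) = cs.length v := h

theorem len_tri (u v w : W) : cs.length (u⁻¹ * w) ≤ cs.length (u⁻¹ * v) + cs.length (v⁻¹ * w) := by
  have := cs.length_mul_le (u⁻¹ * v) (v⁻¹ * w)
  rwa [show u⁻¹ * v * (v⁻¹ * w) = u⁻¹ * w by group] at this

theorem len_tri1 (u v : W) : cs.length v ≤ cs.length u + cs.length (u⁻¹ * v) := by
  have := cs.length_mul_le u (u⁻¹ * v)
  rwa [show u * (u⁻¹ * v) = v by group] at this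

theorem pl_trans {u v w : W} (h : Pl cs u v) (h' : Pl cs v w) : Pl cs u w := by
  unfold Pl at *
  have h1 := len_tri (cs := cs) u v w
  have h2 := len_tri1 (cs := cs) u w
  omega

theorem pl_antisymm {u v : W} (h : Pl cs u v) (h' : Pl cs v u) : u = v := by
  unfold Pl at *
  have h1 : cs.length (u⁻¹ * v) = 0 := by omega
  rw [cs.length_eq_zero_iff] at h1
  exact inv_mul_eq_one.1 h1

/-- lengths add -/
def Ad (cs : CoxeterSystem M W) (u v : W) : Prop := cs.length (u * v) = cs.length u + cs.length v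

theorem Ad.pl {u v : W} (h : Ad cs u v) : Pl cs u (u * v) := by
  unfold Ad at h
  unfold Pl
  rw [inv_mul_cancel_left, h]

theorem pl_ad {u v : W} (h : Pl cs u v) : Ad cs u (u⁻¹ * v) := by
  unfold Ad
  unfold Pl at h
  rw [mul_inv_cancel_left, h]

/-- (O2) -/
theorem o2 {u v y : W} (h : Ad cs u v) (hy : Pl cs y v) : Ad cs u y ∧ Pl cs (u * y) (u * v) := by
  unfold Ad Pl at *
  have h1 := cs.length_mul_le (u * y) (y⁻¹ * v)
  have h2 := cs.length_mul_le u y
  rw [show u * y * (y⁻¹ * v) = u * v by group] at h1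
  rw [show (u * y)⁻¹ * (u * v) = y⁻¹ * v by group]
  omega

theorem o2' {u v y : W} (h : Ad cs u v) (hy : Ad cs u y) (hp : Pl cs (u * y) (u * v)) :
    Pl cs y v := by
  unfold Ad Pl at *
  rw [show (u * y)⁻¹ * (u * v) = y⁻¹ * v by group] at hp
  omega

theorem ad_assoc {u v y : W} (h : Ad cs u v) (hy : Ad cs (u * v) y) :
    Ad cs v y ∧ Ad cs u (v * y) := by
  unfold Ad at *
  have h1 := cs.length_mul_le u (v * y)
  have h2 := cs.length_mul_le v y
  rw [← mul_assoc] at h1
  rw [← mul_assoc]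
  omega

theorem ad_assoc' {u v y : W} (h : Ad cs v y) (hy : Ad cs u (v * y)) :
    Ad cs u v ∧ Ad cs (u * v) y := by
  unfold Ad at *
  have h1 := cs.length_mul_le (u * v) y
  have h2 := cs.length_mul_le u v
  rw [← mul_assoc] at hy
  omega

end order

section longest

variable {B W : Type*} [Fintype B] [DecidableEq B] [Group W] {M : CoxeterMatrix B}
  {cs : CoxeterSystem M W}

theorem longest_mul' {w0 : W} (h : ∀ w, cs.length w ≤ cs.length w0) (w : W) :
    cs.length (w⁻¹ * w0) + cs.length w = cs.length w0 := by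
  have h1 := longest_mul h w
  have h2 : w⁻¹ * w0 = (w0 * w)⁻¹ := by
    rw [mul_inv_rev, inv_eq_of_mul_eq_one_left (longest_sq h)]
  rw [h2, cs.length_inv, h1]

/-- (O3) -/
theorem o3 {w0 : W} (h : ∀ w, cs.length w ≤ cs.length w0) (u v : W) :
    Ad cs u v ↔ Pl cs v (u⁻¹ * w0) := by
  unfold Ad Pl
  have h1 := longest_mul' h u
  have h2 := longest_mul' h (u * v)
  rw [show v⁻¹ * (u⁻¹ * w0) = (u * v)⁻¹ * w0 by group]
  omega

end longest

/-! ## the positive section -/

section sg

variable {B : Type u} [Fintype B] [DecidableEq B] (M : CoxeterMatrix B)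

omit [Fintype B] [DecidableEq B] in
theorem pm_append (l l' : List B) : pm M (l ++ l') = pm M l * pm M l' := by
  unfold pm
  rw [FreeMonoid.ofList_append, map_mul]

omit [Fintype B] [DecidableEq B] in
theorem pm_nil : pm M [] = 1 := rfl

omit [Fintype B] [DecidableEq B] in
theorem pm_cons (b : B) (l : List B) : pm M (b :: l) = pm M [b] * pm M l := pm_append M [b] l

omit [Fintype B] [DecidableEq B] in
theorem pm_prod (ω : List B) : (ω.map (fun i => pm M [i])).prod = pm M ω := by
  induction ω with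
  | nil => rfl
  | cons b l ih => rw [List.map_cons, List.prod_cons, ih, pm_cons M b l]

omit [Fintype B] [DecidableEq B] in
theorem awp_eq (m : ℕ) (i j : B) : awp m i j = Pool.Agent.Helper741.aw i j m := by
  induction m generalizing i j with
  | zero => rfl
  | succ m ih => rw [awp, ih, Pool.Agent.Helper741.aw_succ]

omit [Fintype B] [DecidableEq B] in
theorem pm_rel (i j : B) : pm M (awp (M i j) i j) = pm M (awp (M i j) j i) :=
  PresentedMonoid.mk_eq_mk_of_rel ⟨i, j, rfl, rfl⟩

/-- the positive section `W → AP` -/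
noncomputable def sg (w : M.Group) : AP M := pm M (rword M.toCoxeterSystem w)

variable {M}

theorem sg_eq (hM : S_MAT.{u, u}) (ω : List B) (h : M.toCoxeterSystem.IsReduced ω) :
    sg M (M.toCoxeterSystem.wordProd ω) = pm M ω := by
  unfold sg
  rw [← pm_prod, ← pm_prod]
  refine hM B M (AP M) (fun i => pm M [i]) ?_ _ _ (rword_reduced _ _) h (rword_prod _ _)
  intro i j
  rw [← Pool.Agent.Helper741.aw_prod (fun i => pm M [i]),
    ← Pool.Agent.Helper741.aw_prod (fun i => pm M [i]), pm_prod, pm_prod, ← awp_eq,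
    ← awp_eq, pm_rel]

theorem sg_mul (hM : S_MAT.{u, u}) {x y : M.Group} (h : Ad M.toCoxeterSystem x y) :
    sg M (x * y) = sg M x * sg M y := by
  have h1 : M.toCoxeterSystem.wordProd (rword M.toCoxeterSystem x ++ rword M.toCoxeterSystem y) =
      x * y := by
    rw [CoxeterSystem.wordProd_append, rword_prod, rword_prod]
  have h2 := sg_eq hM (rword M.toCoxeterSystem x ++ rword M.toCoxeterSystem y) (by
    unfold CoxeterSystem.IsReduced
    rw [h1, List.length_append, rword_length, rword_length]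
    exact h)
  rw [h1, pm_append] at h2
  exact h2

theorem sg_simple (hM : S_MAT.{u, u}) (b : B) :
    sg M (M.toCoxeterSystem.simple b) = pm M [b] := by
  have h1 := sg_eq (M := M) hM [b] (by
    unfold CoxeterSystem.IsReduced
    rw [CoxeterSystem.wordProd_singleton, CoxeterSystem.length_simple]
    rfl)
  rwa [CoxeterSystem.wordProd_singleton] at h1

theorem sg_one (hM : S_MAT.{u, u}) : sg M (1 : M.Group) = 1 := by
  have h1 := sg_eq (M := M) hM [] (by
    unfold CoxeterSystem.IsReduced
    simp)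
  rwa [CoxeterSystem.wordProd_nil] at h1

end sg

/-! ## the action -/

section act

variable {B : Type u} [Fintype B] [DecidableEq B] (M : CoxeterMatrix B)
  (w0 : M.Group) (mt : M.Group → M.Group → M.Group)

/-- the maps `Φ_x` -/
noncomputable def Ph (x : M.Group) (z : M.Group × AP M) : M.Group × AP M :=
  (x * mt (x⁻¹ * w0) z.1, sg M ((mt (x⁻¹ * w0) z.1)⁻¹ * z.1) * z.2)

/-- the generators -/
noncomputable def PhE (b : B) : Function.End (M.Group × AP M) := Ph M w0 mt (M.toCoxeterSystem.simple b)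

/-- `mt` is the meet -/
def IsMt : Prop := ∀ a b, Pl M.toCoxeterSystem (mt a b) a ∧ Pl M.toCoxeterSystem (mt a b) b ∧
  ∀ x, Pl M.toCoxeterSystem x a → Pl M.toCoxeterSystem x b → Pl M.toCoxeterSystem x (mt a b)

variable {M w0 mt}

theorem Ph_comp (hM : S_MAT.{u, u}) (h0 : ∀ w, M.toCoxeterSystem.length w ≤
    M.toCoxeterSystem.length w0) (hmt : IsMt M mt) {x y : M.Group}
    (h : Ad M.toCoxeterSystem x y) (z : M.Group × AP M) :
    Ph M w0 mt x (Ph M w0 mt y z) = Ph M w0 mt (x * y) z := by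
  obtain ⟨k, τ⟩ := z
  set a1 := mt (y⁻¹ * w0) k with ha1
  obtain ⟨m1, m2, m3⟩ := hmt (y⁻¹ * w0) k
  rw [← ha1] at m1 m2 m3
  set a2 := mt (x⁻¹ * w0) (y * a1) with ha2
  obtain ⟨n1, n2, n3⟩ := hmt (x⁻¹ * w0) (y * a1)
  rw [← ha2] at n1 n2 n3
  set s := mt ((x * y)⁻¹ * w0) k with hs
  obtain ⟨p1, p2, p3⟩ := hmt ((x * y)⁻¹ * w0) k
  rw [← hs] at p1 p2 p3
  have e1 : Ad M.toCoxeterSystem y a1 := (o3 h0 _ _).2 m1
  have e2 : Pl M.toCoxeterSystem y a2 := n3 y ((o3 h0 _ _).1 h) e1.pl
  have e3 := pl_ad e2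
  set t := y⁻¹ * a2 with ht
  have hyt : y * t = a2 := by rw [ht]; group
  have e4 : Ad M.toCoxeterSystem x (y * t) := by rw [hyt]; exact (o3 h0 _ _).2 n1
  have e5 := (ad_assoc' e3 e4).2
  have e6 : Pl M.toCoxeterSystem t a1 := o2' e1 e3 (by rw [hyt]; exact n2)
  have e7 : Pl M.toCoxeterSystem t s := p3 t ((o3 h0 _ _).1 e5) (pl_trans e6 m2)
  have f1 : Ad M.toCoxeterSystem (x * y) s := (o3 h0 _ _).2 p1
  obtain ⟨f2, f3⟩ := ad_assoc h f1
  have f4 : Pl M.toCoxeterSystem s a1 := m3 s ((o3 h0 _ _).1 f2) p2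
  have f5 : Pl M.toCoxeterSystem (y * s) (y * t) := by
    rw [hyt]
    exact n3 _ ((o3 h0 _ _).1 f3) (o2 e1 f4).2
  have f6 : Pl M.toCoxeterSystem s t := o2' e3 f2 f5
  have hst : s = t := pl_antisymm f6 e7
  have g1 : a2 = y * s := by rw [hst, hyt]
  have g2 : Ad M.toCoxeterSystem (s⁻¹ * a1) (a1⁻¹ * k) := by
    unfold Ad
    have h1 := pl_len f4
    have h2 := pl_len m2
    have h3 := pl_len (pl_trans f4 m2)
    rw [show s⁻¹ * a1 * (a1⁻¹ * k) = s⁻¹ * k by group]
    omega
  unfold Ph
  simp only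
  rw [← ha1, ← ha2, ← hs]
  refine Prod.ext ?_ ?_
  · simp only
    rw [g1, mul_assoc]
  · simp only
    rw [g1, ← mul_assoc, show (y * s)⁻¹ * (y * a1) = s⁻¹ * a1 by group, ← sg_mul hM g2]
    rw [show s⁻¹ * a1 * (a1⁻¹ * k) = s⁻¹ * k by group]

theorem Ph_word (hM : S_MAT.{u, u}) (h0 : ∀ w, M.toCoxeterSystem.length w ≤
    M.toCoxeterSystem.length w0) (hmt : IsMt M mt) (ω : List B)
    (h : M.toCoxeterSystem.IsReduced ω) (hne : ω ≠ []) :
    (ω.map (PhE M w0 mt)).prod = Ph M w0 mt (M.toCoxeterSystem.wordProd ω) := by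
  induction ω with
  | nil => exact absurd rfl hne
  | cons i ω ih =>
    by_cases hω : ω = []
    · subst hω
      rw [List.map_cons, List.map_nil, List.prod_cons, List.prod_nil, mul_one,
        CoxeterSystem.wordProd_singleton]
      rfl
    · have h1 : M.toCoxeterSystem.IsReduced ω := by simpa using h.drop 1
      rw [List.map_cons, List.prod_cons, ih h1 hω]
      funext z
      have h2 : Ad M.toCoxeterSystem (M.toCoxeterSystem.simple i)
          (M.toCoxeterSystem.wordProd ω) := by
        unfold Ad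
        rw [← CoxeterSystem.wordProd_cons, h.eq, h1.eq, CoxeterSystem.length_simple,
          List.length_cons, add_comm]
      rw [CoxeterSystem.wordProd_cons]
      exact Ph_comp hM h0 hmt h2 z

theorem Ph_rel (hM : S_MAT.{u, u}) (h0 : ∀ w, M.toCoxeterSystem.length w ≤
    M.toCoxeterSystem.length w0) (hmt : IsMt M mt) (i j : B) :
    ((awp (M i j) i j).map (PhE M w0 mt)).prod = ((awp (M i j) j i).map (PhE M w0 mt)).prod := by
  by_cases hij : i = j
  · subst hij; rfl
  by_cases hm : M i j = 0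
  · rw [hm]; rfl
  have hlen : ∀ (m : ℕ) (i j : B), m ≠ 0 → awp m i j ≠ [] := by
    intro m i j hm
    cases m with
    | zero => exact absurd rfl hm
    | succ m => simp [awp]
  have h1 := isReduced_aw M.toCoxeterSystem hij (k := M i j) (Or.inr le_rfl)
  have h2 := isReduced_aw M.toCoxeterSystem (Ne.symm hij) (k := M i j)
    (Or.inr (by rw [M.symmetric j i]))
  rw [← awp_eq] at h1 h2
  rw [Ph_word hM h0 hmt _ h1 (hlen _ _ _ hm), Ph_word hM h0 hmt _ h2 (hlen _ _ _ hm)]
  congr 1
  rw [awp_eq, awp_eq, Pool.Agent.Helper741.wordProd_aw, Pool.Agent.Helper741.wordProd_aw]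
  exact Pool.Agent.Helper741.alt_comm_of_pow (M.toCoxeterSystem.simple_mul_simple_self i)
    (M.toCoxeterSystem.simple_mul_simple_self j) (M.toCoxeterSystem.simple_mul_simple_pow i j)

end act

theorem t_LCN (hE : S_MEE.{u, u}) (hM : S_MAT.{u, u}) : S_LCN.{u} := by
  intro B _ _ M hfin
  set cs := M.toCoxeterSystem with hcs
  obtain ⟨w0, h0⟩ := exists_longest cs
  choose mt hmt using fun a b => hE B M M.Group cs a b
  have hmt' : IsMt M mt := hmt
  -- the action
  have hrel : ∀ x y : FreeMonoid B, APr M x y →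
      FreeMonoid.lift (PhE M w0 mt) x = FreeMonoid.lift (PhE M w0 mt) y := by
    rintro x y ⟨i, j, rfl, rfl⟩
    rw [FreeMonoid.lift_ofList, FreeMonoid.lift_ofList]
    exact Ph_rel hM h0 hmt' i j
  let Φ : AP M →* Function.End (M.Group × AP M) := PresentedMonoid.lift _ hrel
  have hΦ : ∀ b, Φ (pm M [b]) = Ph M w0 mt (cs.simple b) := fun b => rfl
  -- evaluation
  have hev : ∀ (b : B) (z : M.Group × AP M),
      sg M (Ph M w0 mt (cs.simple b) z).1 * (Ph M w0 mt (cs.simple b) z).2 =
        pm M [b] * (sg M z.1 * z.2) := by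
    intro b z
    unfold Ph
    simp only
    obtain ⟨m1, m2, -⟩ := hmt ((cs.simple b)⁻¹ * w0) z.1
    rw [sg_mul hM ((o3 h0 _ _).2 m1), mul_assoc, ← mul_assoc (sg M (mt _ _)), ← sg_mul hM (pl_ad m2),
      mul_inv_cancel_left, sg_simple hM]
  have hev2 : ∀ x : AP M, sg M (Φ x (1, 1)).1 * (Φ x (1, 1)).2 = x := by
    intro x
    induction x using PresentedMonoid.inductionOn with
    | h l =>
      induction l using FreeMonoid.recOn with
      | one =>
        rw [map_one, map_one]
        show sg M (1 : M.Group) * 1 = 1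
        rw [sg_one hM, mul_one]
      | of_mul b l ih =>
        rw [map_mul, map_mul]
        have := hev b (Φ (PresentedMonoid.mk (APr M) l) (1, 1))
        rw [ih] at this
        exact this
  have hb : ∀ (b : B) (y z : AP M), pm M [b] * y = pm M [b] * z → y = z := by
    intro b
    have hq : ∀ x : AP M, sg M (cs.simple b * (Φ (pm M [b] * x) (1, 1)).1) *
        (Φ (pm M [b] * x) (1, 1)).2 = x := by
      intro x
      conv_rhs => rw [← hev2 x]
      rw [map_mul]
      show sg M (cs.simple b * (Ph M w0 mt (cs.simple b) (Φ x (1, 1))).1) *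
        (Ph M w0 mt (cs.simple b) (Φ x (1, 1))).2 = _
      unfold Ph
      simp only
      obtain ⟨m1, m2, -⟩ := hmt ((cs.simple b)⁻¹ * w0) (Φ x (1, 1)).1
      rw [CoxeterSystem.simple_mul_simple_cancel_left, ← mul_assoc, ← sg_mul hM (pl_ad m2),
        mul_inv_cancel_left]
    intro y z h
    rw [← hq y, ← hq z, h]
  intro x
  induction x using PresentedMonoid.inductionOn with
  | h l =>
    induction l using FreeMonoid.recOn with
    | one =>
      intro y z h
      simpa using h
    | of_mul b l ih =>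
      intro y z h
      rw [map_mul, mul_assoc, mul_assoc] at h
      exact ih y z (hb b _ _ h)

end Pool.Agent.L0h61.AL
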